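import Pool.Agent.Y530.TN.Stm

/-!
# Project TN, job NUM5: three bodies with five points each (helper739)
-/

set_option autoImplicit false

namespace Pool.Agent.Y739.TN.Num5

open Finset Module Pool.Agent.W824.BJ Pool.Agent.Y530.BB Pool.Agent.Y530.TN

/-- the points of the first body -/
def Q0 : Fin 5 → Fin 4 → ℚ := ![![0, 1, 0, 0], ![0, 0, 0, 1], ![1, 1, 1, 0], ![0, 0, 1, 1], ![1, 1, 0, 1]]

/-- the points of the second body -/
def Q1 : Fin 5 → Fin 4 → ℚ := ![![1, 1, 0, 1], ![1, 0, 0, 0], ![0, 1, 1, 1], ![1, 0, 1, 1], ![1, 1, 0, 0]]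

/-- the points of the third body -/
def Q2 : Fin 5 → Fin 4 → ℚ := ![![0, 1, 1, 1], ![0, 1, 1, 0], ![1, 0, 1, 0], ![0, 0, 1, 0], ![1, 0, 1, 0]]

/-- the five bars between the first two bodies -/
theorem solve1 (c : Fin 6 → ℚ) (h : ∀ k, pr c (Q0 k) (Q1 k) = 0) :
    c 0 = 0 ∧ c 1 = 0 ∧ c 2 = 0 ∧ c 4 = 0 ∧ c 5 = 0 := by
  have a0 := h 0
  have a1 := h 1
  have a2 := h 2
  have a3 := h 3
  have a4 := h 4
  simp [pr, Q0, Q1] at a0 a1 a2 a3 a4
  refine ⟨?_, ?_, ?_, ?_, ?_⟩ <;> linarith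

/-- the five bars between the first body and the third one -/
theorem solve2 (d : Fin 6 → ℚ) (h : ∀ k, pr d (Q0 k) (Q2 k) = 0) :
    d 0 = 0 ∧ d 2 = d 1 ∧ d 3 = 0 ∧ d 4 = 0 ∧ d 5 = 0 := by
  have a0 := h 0
  have a1 := h 1
  have a2 := h 2
  have a3 := h 3
  have a4 := h 4
  simp [pr, Q0, Q2] at a0 a1 a2 a3 a4
  refine ⟨?_, ?_, ?_, ?_, ?_⟩ <;> linarith

theorem t : S_NUM 5 := by
  refine ⟨![Q0, Q1, Q2], fun σ _ m hm0 h1 h2 h3 => ?_⟩
  obtain ⟨c0, c1, c2, c4, c5⟩ := solve1 (m 1) h1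
  obtain ⟨d0, d2, d3, d4, d5⟩ := solve2 (m 2) h2
  have b1 : pr (m 1 - m 2) (Q1 1) (Q2 (σ 1)) = 0 := h3 1
  have b0 : pr (m 1 - m 2) (Q1 0) (Q2 (σ 0)) = 0 := h3 0
  have d1 : m 2 1 = 0 := by
    generalize σ 1 = l at b1
    fin_cases l <;> simp [pr, Q1, Q2, c0, c1, c2, d0, d2] at b1 <;> linarith
  rw [d1] at d2
  have c3 : m 1 3 = 0 := by
    generalize σ 0 = l at b0
    fin_cases l <;> simp [pr, Q1, Q2, c0, c1, c2, c4, c5, d0, d1, d2, d3, d4, d5] at b0 <;>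
      linarith
  funext i j
  fin_cases i
  · exact congrFun hm0 j
  · fin_cases j
    · exact c0
    · exact c1
    · exact c2
    · exact c3
    · exact c4
    · exact c5
  · fin_cases j
    · exact d0
    · exact d1
    · exact d2
    · exact d3
    · exact d4
    · exact d5

end Pool.Agent.Y739.TN.Num5
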